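import Pool.Agent.Helper5.SX.St

/-!
# Project SX, module AVG
-/

set_option autoImplicit false

namespace Pool.Agent.Helper90.SX

open _root_.SX
open Finset
open scoped Classical

theorem hAVG : StFCD → StCLB → StTYB → StAVG := by
  intro hFCD hCLB hTYB V _ A c y l t0 t1 C L hF B hB hT2
  have hSt : St A c y l := hF.st.mx.st
  have hLab : Lab A.toSys c := hSt.base.lab
  have hLC : L B ⊆ C B := (hF.free B hB).sub
  have hCR : C B ⊆ Rp A c y l t0 B := (hF.comp B hB).sub
  -- the block of the elements of `Rp`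
  have hblk : ∀ x ∈ Rp A c y l t0 B, A.b x = B := by
    intro x hx
    have h1 := (Finset.mem_filter.1 hx).1
    exact (Finset.mem_filter.1 h1).2.1
  have hexc : ∀ x ∈ Rp A c y l t0 B, exc A c y l x ≤ t0 := fun x hx => (Finset.mem_filter.1 hx).2
  have hTcC : Tc A c y l (C B) ⊆ C B := Finset.filter_subset _ _
  -- one vertex `x` of `L B`
  have h1 : ∀ x ∈ L B, ((Tc A c y l (C B)).filter (fun z => c z ∈ Fb A c y l x)).card +
      (Rp A c y l t0 B \ C B).card ≤ A.D + t0 := by
    intro x hx
    have hxC := hLC hx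
    have hxR := hCR hxC
    have hFb : (Fb A c y l x).card ≤ A.D + t0 :=
      (hFCD V A c y l x hSt).trans (Nat.add_le_add_left (hexc x hxR) _)
    refine le_trans ?_ hFb
    have hdis : Disjoint ((Tc A c y l (C B)).filter (fun z => c z ∈ Fb A c y l x))
        (Rp A c y l t0 B \ C B) := by
      rw [Finset.disjoint_left]
      intro z hz hz'
      exact (Finset.mem_sdiff.1 hz').2 (hTcC (Finset.mem_filter.1 hz).1)
    rw [← Finset.card_union_of_disjoint hdis]
    apply Finset.card_le_card_of_injOn c
    · intro z hz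
      rcases Finset.mem_union.1 hz with hz | hz
      · exact (Finset.mem_filter.1 hz).2
      · obtain ⟨hz1, hz2⟩ := Finset.mem_sdiff.1 hz
        by_contra hc
        exact hz2 ((hF.comp B hB).closed x hxC z hz1 hc)
    · intro z hz z' hz' hzz
      have hb : ∀ w, w ∈ (((Tc A c y l (C B)).filter (fun z => c z ∈ Fb A c y l x)) ∪
          (Rp A c y l t0 B \ C B) : Finset V) → A.b w = B := by
        intro w hw
        rcases Finset.mem_union.1 hw with hw | hw
        · exact hblk w (hCR (hTcC (Finset.mem_filter.1 hw).1))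
        · exact hblk w (Finset.mem_sdiff.1 hw).1
      exact hLab.inj z z' ((hb z hz).trans (hb z' hz').symm) hzz
  -- one critical vertex `z`
  have h2 : ∀ z ∈ Tc A c y l (C B), (Rp A c y l t0 B).card ≤
      ((L B).filter (fun x => c z ∈ Fb A c y l x)).card + (2 * A.D + t0) := by
    intro z hz
    obtain ⟨hzC, htight, m, hmK, hmM, ⟨v, hv, hvz⟩, huniq⟩ := Finset.mem_filter.1 hz
    obtain ⟨hmN, hmKs⟩ := Finset.mem_filter.1 hmK
    have hmKM : m ∈ KM A c y l := Finset.mem_filter.2 ⟨hmKs, hmM⟩
    have hzN : z ∈ A.N m := A.symm z m hmN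
    have h3 := hTYB V A c y l t0 t1 C L hF B hB hT2 m hmKM
    have h4 : (L B \ A.N m).card ≤ ((L B).filter (fun x => c z ∈ Fb A c y l x)).card := by
      apply Finset.card_le_card
      intro x hx
      obtain ⟨hx1, hx2⟩ := Finset.mem_sdiff.1 hx
      refine Finset.mem_filter.2 ⟨hx1, ?_⟩
      exact hCLB V A c y l t0 t1 C L hF m hmKM v hv z hzN hvz.symm
        (fun z' hz' h => huniq z' hz' (h.trans hvz)) B hB hzC x (hLC hx1) hx2
    omega
  -- double counting
  have h5 : ∑ x ∈ L B, ((Tc A c y l (C B)).filter (fun z => c z ∈ Fb A c y l x)).card =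
      ∑ z ∈ Tc A c y l (C B), ((L B).filter (fun x => c z ∈ Fb A c y l x)).card := by
    simp only [Finset.card_filter]
    exact Finset.sum_comm
  have h6 := Finset.sum_le_sum h1
  have h7 := Finset.sum_le_sum h2
  rw [Finset.sum_add_distrib, Finset.sum_const, Finset.sum_const, smul_eq_mul, smul_eq_mul] at h6
  rw [Finset.sum_add_distrib, Finset.sum_const, Finset.sum_const, smul_eq_mul, smul_eq_mul] at h7
  rw [h5] at h6
  linarith

end Pool.Agent.Helper90.SX
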